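import Mathlib

open MeasureTheory Set Filter Topology Metric
open scoped ENNReal

namespace Pool.Agent.X19.TR

/-- Euclidean three-space. -/
abbrev E3 := EuclideanSpace ℝ (Fin 3)

/-- The unit sphere of directions. -/
abbrev S2 := Metric.sphere (0 : E3) 1

/-- The surface measure of the unit sphere (total mass `4 pi`). -/
noncomputable def surf : Measure S2 := (volume : Measure E3).toSphere

/-- First-exit distance from `r` along `o`. -/
noncomputable def exitDist (V : Set E3) (r : E3) (o : S2) : ℝ :=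
  sInf {t : ℝ | 0 < t ∧ r + t • (o : E3) ∉ V}

/-- `M` is a bounded measurable solution of the integral equation with parameter `lam` on
`V x S2`. -/
structure IsSol (V : Set E3) (lam : ℝ) (M : E3 × S2 → ℝ) : Prop where
  meas : Measurable M
  bdd : ∃ C : ℝ, ∀ r ∈ V, ∀ o : S2, |M (r, o)| ≤ C
  eqn : ∀ r ∈ V, ∀ o : S2, M (r, o) = 1 - Real.exp (-exitDist V r o) +
    lam / (4 * Real.pi) * ∫ x in (0:ℝ)..exitDist V r o,
      Real.exp (-lam * x) * ∫ o', M (r + x • (o : E3), o') ∂surf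

lemma norm_S2 (o : S2) : ‖(o : E3)‖ = 1 := by
  have := o.2
  rwa [mem_sphere_zero_iff_norm] at this

section
variable {V : Set E3} {R : ℝ}

lemma exit_out (hVR : V ⊆ ball 0 R) {r : E3} (hr : r ∈ V) (o : S2) {t : ℝ} (ht : 2 * R ≤ t) :
    r + t • (o : E3) ∉ V := by
  intro h
  have h1 := hVR hr
  have h2 := hVR h
  rw [mem_ball_zero_iff] at h1 h2
  have h3 : ‖t • (o : E3)‖ = |t| := by rw [norm_smul, norm_S2, mul_one, Real.norm_eq_abs]
  have h4 : ‖t • (o : E3)‖ ≤ ‖r + t • (o : E3)‖ + ‖r‖ := by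
    have : t • (o : E3) = (r + t • (o : E3)) - r := by abel
    calc ‖t • (o : E3)‖ = ‖(r + t • (o : E3)) - r‖ := by rw [← this]
      _ ≤ _ := norm_sub_le _ _
  have h5 := le_abs_self t
  linarith

lemma R_pos (hVR : V ⊆ ball 0 R) {r : E3} (hr : r ∈ V) : 0 < R := by
  have h1 := hVR hr
  rw [mem_ball_zero_iff] at h1
  exact lt_of_le_of_lt (norm_nonneg _) h1

lemma exitDist_le (hVR : V ⊆ ball 0 R) {r : E3} (hr : r ∈ V) (o : S2) :
    exitDist V r o ≤ 2 * R := by
  have hR := R_pos hVR hr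
  exact csInf_le ⟨0, fun t ht => ht.1.le⟩ ⟨by linarith, exit_out hVR hr o le_rfl⟩

lemma lt_exitDist_iff (hV : IsOpen V) (hVR : V ⊆ ball 0 R) {r : E3} (hr : r ∈ V) (o : S2)
    (x : ℝ) : x < exitDist V r o ↔ ∀ t ∈ Icc 0 x, r + t • (o : E3) ∈ V := by
  have hR := R_pos hVR hr
  set S : Set ℝ := {t : ℝ | 0 < t ∧ r + t • (o : E3) ∉ V} with hS
  have hSeq : S = Ici 0 ∩ (fun t : ℝ => r + t • (o : E3)) ⁻¹' Vᶜ := by
    ext t
    simp only [hS, mem_ofPred_eq, mem_inter_iff, mem_Ici, mem_preimage, mem_compl_iff]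
    constructor
    · rintro ⟨h1, h2⟩; exact ⟨h1.le, h2⟩
    · rintro ⟨h1, h2⟩
      refine ⟨lt_of_le_of_ne h1 ?_, h2⟩
      intro h0
      rw [← h0] at h2
      simp only [zero_smul, add_zero] at h2
      exact h2 hr
  have hSc : IsClosed S := by
    rw [hSeq]
    exact isClosed_Ici.inter (hV.isClosed_compl.preimage (by fun_prop))
  have hSne : S.Nonempty := ⟨2 * R, by linarith, exit_out hVR hr o le_rfl⟩
  have hSbdd : BddBelow S := ⟨0, fun t ht => ht.1.le⟩
  have hmem : exitDist V r o ∈ S := hSc.csInf_mem hSne hSbdd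
  constructor
  · intro hlt t ht
    by_contra hnot
    have htS : t ∈ S := by
      rw [hSeq]; exact ⟨ht.1, hnot⟩
    have : exitDist V r o ≤ t := csInf_le hSbdd htS
    linarith [ht.2]
  · intro h
    by_contra hnot
    push Not at hnot
    exact hmem.2 (h _ ⟨hmem.1.le, hnot⟩)

lemma exitDist_pos (hV : IsOpen V) (hVR : V ⊆ ball 0 R) {r : E3} (hr : r ∈ V) (o : S2) :
    0 < exitDist V r o := by
  rw [lt_exitDist_iff hV hVR hr o 0]
  intro t ht
  have : t = 0 := le_antisymm ht.2 ht.1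
  rw [this, zero_smul, add_zero]
  exact hr

/-- the set of `(r, o, x)` with `r ∈ V`, `0 < x` and `x` smaller than the exit distance. -/
def Wset (V : Set E3) : Set ((E3 × S2) × ℝ) :=
  {p | p.1.1 ∈ V ∧ 0 < p.2 ∧ p.2 < exitDist V p.1.1 p.1.2}

lemma Wset_mem_iff (hV : IsOpen V) (hVR : V ⊆ ball 0 R) (p : (E3 × S2) × ℝ) :
    p ∈ Wset V ↔ 0 < p.2 ∧ ∀ s ∈ Icc (0:ℝ) 1, p.1.1 + (s * p.2) • (p.1.2 : E3) ∈ V := by
  constructor
  · rintro ⟨h1, h2, h3⟩
    refine ⟨h2, fun s hs => ?_⟩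
    rw [lt_exitDist_iff hV hVR h1 _ _] at h3
    exact h3 _ ⟨mul_nonneg hs.1 h2.le, by nlinarith [hs.2]⟩
  · rintro ⟨h1, h2⟩
    have hr : p.1.1 ∈ V := by simpa using h2 0 ⟨le_rfl, zero_le_one⟩
    refine ⟨hr, h1, ?_⟩
    rw [lt_exitDist_iff hV hVR hr _ _]
    intro t ht
    have := h2 (t / p.2) ⟨div_nonneg ht.1 h1.le, (div_le_one h1).2 ht.2⟩
    rwa [div_mul_cancel₀ _ h1.ne'] at this

lemma Wset_open (hV : IsOpen V) (hVR : V ⊆ ball 0 R) : IsOpen (Wset V) := by
  have e : Wset V = {p | 0 < p.2} ∩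
      {p : (E3 × S2) × ℝ | ∀ s ∈ Icc (0:ℝ) 1, p.1.1 + (s * p.2) • (p.1.2 : E3) ∈ V} := by
    ext p
    rw [Wset_mem_iff hV hVR]
    rfl
  rw [e]
  refine (isOpen_lt continuous_const continuous_snd).inter ?_
  rw [isOpen_iff_eventually]
  intro p hp
  apply isCompact_Icc.eventually_forall_of_forall_eventually
  intro s hs
  have hc : Continuous fun z : ((E3 × S2) × ℝ) × ℝ =>
      z.1.1.1 + (z.2 * z.1.2) • (z.1.1.2 : E3) := by fun_prop
  exact (hc.continuousAt (x := (p, s))).eventually (hV.mem_nhds (hp s hs))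

lemma Wset_meas (hV : IsOpen V) (hVR : V ⊆ ball 0 R) : MeasurableSet (Wset V) :=
  (Wset_open hV hVR).measurableSet

lemma mem_V_of_W (hV : IsOpen V) (hVR : V ⊆ ball 0 R) {r : E3} {o : S2} {x : ℝ}
    (h : ((r, o), x) ∈ Wset V) : r + x • (o : E3) ∈ V := by
  rw [Wset_mem_iff hV hVR] at h
  have := h.2 1 ⟨zero_le_one, le_rfl⟩
  simpa using this

end

/-- The normalised surface measure. -/
noncomputable def tau : Measure S2 := (ENNReal.ofReal (4 * Real.pi))⁻¹ • surf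

lemma surf_univ : surf univ = ENNReal.ofReal (4 * Real.pi) := by
  unfold surf
  rw [Measure.toSphere_apply_univ]
  have h1 : Module.finrank ℝ E3 = 3 := by simp
  rw [h1, EuclideanSpace.volume_ball_fin_three]
  rw [ENNReal.ofReal_one, one_pow, one_mul, show ((3:ℕ) : ℝ≥0∞) = ENNReal.ofReal 3 by simp,
    ← ENNReal.ofReal_mul (by norm_num)]
  congr 1
  ring

instance : IsProbabilityMeasure tau := by
  constructor
  unfold tau
  rw [Measure.smul_apply, surf_univ, smul_eq_mul]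
  apply ENNReal.inv_mul_cancel
  · simp [Real.pi_pos]
  · exact ENNReal.ofReal_ne_top

lemma integral_tau (f : S2 → ℝ) : ∫ o, f o ∂tau = (4 * Real.pi)⁻¹ * ∫ o, f o ∂surf := by
  unfold tau
  rw [integral_smul_measure, ENNReal.toReal_inv, ENNReal.toReal_ofReal (by positivity), smul_eq_mul]

end Pool.Agent.X19.TR
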