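import Mathlib
import Pool.Agent.X19.TR.Exit

open MeasureTheory Set Filter Topology Metric
open scoped ENNReal

namespace Pool.Agent.X19.TR

/-- angular average. -/
noncomputable def avg (f : E3 × S2 → ℝ) (r : E3) : ℝ := ∫ o, f (r, o) ∂tau

lemma avg_measurable {f : E3 × S2 → ℝ} (hf : Measurable f) : Measurable (avg f) := by
  unfold avg
  apply StronglyMeasurable.measurable
  apply StronglyMeasurable.integral_prod_right
  exact hf.stronglyMeasurable

lemma slice_integrable {f : E3 × S2 → ℝ} (hf : Measurable f) {r : E3} {C : ℝ}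
    (h : ∀ o, |f (r, o)| ≤ C) : Integrable (fun o => f (r, o)) tau := by
  apply Integrable.mono' (integrable_const C)
  · exact (hf.comp (measurable_const.prodMk measurable_id)).aestronglyMeasurable
  · exact Eventually.of_forall fun o => by simpa [Real.norm_eq_abs] using h o

lemma abs_avg_le {f : E3 × S2 → ℝ} {r : E3} {C : ℝ} (h : ∀ o, |f (r, o)| ≤ C) :
    |avg f r| ≤ C := by
  have h1 := norm_integral_le_of_norm_le_const (μ := tau) (f := fun o => f (r, o)) (C := C)
    (Eventually.of_forall fun o => by simpa [Real.norm_eq_abs] using h o)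
  simpa [avg, Real.norm_eq_abs] using h1

noncomputable def opK (V : Set E3) (k : ℝ → ℝ) (f : E3 × S2 → ℝ) (P : E3 × S2) : ℝ :=
  ∫ x, (Wset V).indicator (fun q => k q.2 * avg f (q.1.1 + q.2 • (q.1.2 : E3))) (P, x)

section
variable {V : Set E3} {R : ℝ}

lemma opK_measurable (hV : IsOpen V) (hVR : V ⊆ ball 0 R) {k : ℝ → ℝ} (hk : Measurable k)
    {f : E3 × S2 → ℝ} (hf : Measurable f) : Measurable (opK V k f) := by
  unfold opK
  apply StronglyMeasurable.measurable
  apply StronglyMeasurable.integral_prod_right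
    (f := fun P x => (Wset V).indicator
      (fun q => k q.2 * avg f (q.1.1 + q.2 • (q.1.2 : E3))) (P, x))
  apply Measurable.stronglyMeasurable
  apply Measurable.indicator _ (Wset_meas hV hVR)
  apply (hk.comp measurable_snd).mul
  apply (avg_measurable hf).comp
  apply Measurable.add
  · exact measurable_fst.fst
  · exact measurable_snd.smul (measurable_fst.snd.subtype_val)

lemma opK_of_mem {k : ℝ → ℝ} {f : E3 × S2 → ℝ} {r : E3} (hr : r ∈ V) (o : S2) :
    opK V k f (r, o) =
      ∫ x in Ioo 0 (exitDist V r o), k x * avg f (r + x • (o : E3)) := by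
  unfold opK
  rw [← integral_indicator measurableSet_Ioo]
  congr 1
  funext x
  by_cases hx : x ∈ Ioo 0 (exitDist V r o)
  · rw [indicator_of_mem hx, indicator_of_mem (show ((r, o), x) ∈ Wset V from ⟨hr, hx.1, hx.2⟩)]
  · rw [indicator_of_notMem hx,
      indicator_of_notMem (show ((r, o), x) ∉ Wset V from fun h => hx ⟨h.2.1, h.2.2⟩)]

lemma opK_of_notMem {k : ℝ → ℝ} {f : E3 × S2 → ℝ} {r : E3} (hr : r ∉ V) (o : S2) :
    opK V k f (r, o) = 0 := by
  unfold opK
  have : ∀ x, (Wset V).indicator (fun q => k q.2 * avg f (q.1.1 + q.2 • (q.1.2 : E3)))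
      ((r, o), x) = 0 := fun x => indicator_of_notMem (fun h => hr h.1) _
  simp_rw [this]
  simp

lemma mem_V_of_Ioo (hV : IsOpen V) (hVR : V ⊆ ball 0 R) {r : E3} (hr : r ∈ V) {o : S2} {x : ℝ}
    (hx : x ∈ Ioo 0 (exitDist V r o)) : r + x • (o : E3) ∈ V :=
  mem_V_of_W hV hVR (⟨hr, hx.1, hx.2⟩ : ((r, o), x) ∈ Wset V)

lemma line_measurable {k : ℝ → ℝ} (hk : Measurable k) {f : E3 × S2 → ℝ} (hf : Measurable f)
    (r : E3) (o : S2) : Measurable fun x : ℝ => k x * avg f (r + x • (o : E3)) := by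
  apply hk.mul
  apply (avg_measurable hf).comp
  exact measurable_const.add (measurable_id.smul measurable_const)

lemma line_integrable (hV : IsOpen V) (hVR : V ⊆ ball 0 R) {k : ℝ → ℝ} (hk : Continuous k)
    {f : E3 × S2 → ℝ} (hf : Measurable f) {C : ℝ} (hC : ∀ r ∈ V, ∀ o, |f (r, o)| ≤ C)
    {r : E3} (hr : r ∈ V) (o : S2) :
    IntegrableOn (fun x => k x * avg f (r + x • (o : E3))) (Ioo 0 (exitDist V r o)) := by
  have h1 : IntegrableOn (fun x => C * |k x|) (Ioo 0 (exitDist V r o)) :=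
    ((by fun_prop : Continuous fun x => C * |k x|).integrableOn_Icc).mono_set Ioo_subset_Icc_self
  apply Integrable.mono' h1
  · exact (line_measurable hk.measurable hf r o).aestronglyMeasurable
  · filter_upwards [ae_restrict_mem measurableSet_Ioo] with x hx
    rw [norm_mul, Real.norm_eq_abs, Real.norm_eq_abs, mul_comm]
    exact mul_le_mul_of_nonneg_right
      (abs_avg_le (hC _ (mem_V_of_Ioo hV hVR hr hx))) (abs_nonneg _)

/-- main bound. -/
lemma opK_le (hV : IsOpen V) (hVR : V ⊆ ball 0 R) {k k' : ℝ → ℝ}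
    (hk' : Continuous k') {f : E3 × S2 → ℝ} {C : ℝ}
    (hC0 : 0 ≤ C)
    (hC : ∀ r ∈ V, |avg f r| ≤ C) {r : E3} (hr : r ∈ V) (o : S2)
    (hkk : ∀ x ∈ Ioo 0 (exitDist V r o), |k x| ≤ k' x) :
    |opK V k f (r, o)| ≤ C * ∫ x in Ioo 0 (exitDist V r o), k' x := by
  rw [opK_of_mem hr, ← integral_const_mul, ← Real.norm_eq_abs]
  apply norm_integral_le_of_norm_le
  · exact ((by fun_prop : Continuous fun x => C * k' x).integrableOn_Icc).mono_set
      Ioo_subset_Icc_self
  · filter_upwards [ae_restrict_mem measurableSet_Ioo] with x hx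
    rw [norm_mul, Real.norm_eq_abs, Real.norm_eq_abs, mul_comm]
    exact mul_le_mul (hC _ (mem_V_of_Ioo hV hVR hr hx)) (hkk x hx) (abs_nonneg _) hC0

lemma opK_sub (hV : IsOpen V) (hVR : V ⊆ ball 0 R) {k : ℝ → ℝ} (hk : Continuous k)
    {f g : E3 × S2 → ℝ} (hf : Measurable f) (hg : Measurable g) {C C' : ℝ}
    (hC : ∀ r ∈ V, ∀ o, |f (r, o)| ≤ C) (hC' : ∀ r ∈ V, ∀ o, |g (r, o)| ≤ C')
    {r : E3} (hr : r ∈ V) (o : S2) :
    opK V k (fun P => f P - g P) (r, o) = opK V k f (r, o) - opK V k g (r, o) := by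
  rw [opK_of_mem hr, opK_of_mem hr, opK_of_mem hr, ← integral_sub
    (line_integrable hV hVR hk hf hC hr o) (line_integrable hV hVR hk hg hC' hr o)]
  apply setIntegral_congr_fun measurableSet_Ioo
  intro x hx
  have hm := mem_V_of_Ioo hV hVR hr hx
  simp only
  rw [← mul_sub]
  congr 1
  unfold avg
  exact integral_sub (slice_integrable hf (hC _ hm)) (slice_integrable hg (hC' _ hm))

lemma opK_add (hV : IsOpen V) (hVR : V ⊆ ball 0 R) {k : ℝ → ℝ} (hk : Continuous k)
    {f g : E3 × S2 → ℝ} (hf : Measurable f) (hg : Measurable g) {C C' : ℝ}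
    (hC : ∀ r ∈ V, ∀ o, |f (r, o)| ≤ C) (hC' : ∀ r ∈ V, ∀ o, |g (r, o)| ≤ C')
    {r : E3} (hr : r ∈ V) (o : S2) :
    opK V k (fun P => f P + g P) (r, o) = opK V k f (r, o) + opK V k g (r, o) := by
  rw [opK_of_mem hr, opK_of_mem hr, opK_of_mem hr, ← integral_add
    (line_integrable hV hVR hk hf hC hr o) (line_integrable hV hVR hk hg hC' hr o)]
  apply setIntegral_congr_fun measurableSet_Ioo
  intro x hx
  have hm := mem_V_of_Ioo hV hVR hr hx
  simp only
  rw [← mul_add]
  congr 1
  unfold avg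
  exact integral_add (slice_integrable hf (hC _ hm)) (slice_integrable hg (hC' _ hm))

lemma integral_exp (lam D : ℝ) (hD : 0 ≤ D) :
    ∫ x in Ioo 0 D, lam * Real.exp (-lam * x) = 1 - Real.exp (-lam * D) := by
  rw [← integral_Ioc_eq_integral_Ioo, ← intervalIntegral.integral_of_le hD]
  have h := intervalIntegral.integral_eq_sub_of_hasDerivAt (a := 0) (b := D)
    (f := fun x => - Real.exp (-lam * x)) (f' := fun x => lam * Real.exp (-lam * x)) ?_ ?_
  · rw [h, mul_zero, Real.exp_zero]; ring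
  · intro x _
    have h1 : HasDerivAt (fun x : ℝ => -lam * x) (-lam) x := by
      simpa using (hasDerivAt_id x).const_mul (-lam)
    have h2 := (h1.exp).neg
    have e : lam * Real.exp (-lam * x) = -(Real.exp (-lam * x) * -lam) := by ring
    rw [e]
    exact h2
  · exact (by fun_prop : Continuous fun x : ℝ => lam * Real.exp (-lam * x)).intervalIntegrable _ _

/-- closing lemma. -/
lemma closing {ι : Type*} (f : ι → ℝ) {B q C0 : ℝ} (hq0 : 0 ≤ q) (hq : q < 1)
    (hC0 : ∀ i, |f i| ≤ C0)
    (h : ∀ C : ℝ, 0 ≤ C → (∀ i, |f i| ≤ C) → ∀ i, |f i| ≤ B + q * C) :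
    ∀ i, |f i| ≤ B / (1 - q) := by
  intro i
  have hC00 : 0 ≤ C0 := (abs_nonneg _).trans (hC0 i)
  have h1 : 0 < 1 - q := by linarith
  by_cases hB : 0 ≤ B / (1 - q)
  · have hn : ∀ n : ℕ, ∀ i, |f i| ≤ B / (1 - q) + q ^ n * C0 := by
      intro n
      induction n with
      | zero => intro i; rw [pow_zero, one_mul]; linarith [hC0 i]
      | succ n ih =>
        intro i
        have := h (B / (1 - q) + q ^ n * C0) (by positivity) ih i
        have e : B + q * (B / (1 - q) + q ^ n * C0) = B / (1 - q) + q ^ (n + 1) * C0 := by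
          field_simp; ring
        rwa [e] at this
    have ht : Tendsto (fun n : ℕ => B / (1 - q) + q ^ n * C0) atTop (𝓝 (B / (1 - q) + 0 * C0)) :=
      tendsto_const_nhds.add ((tendsto_pow_atTop_nhds_zero_of_lt_one hq0 hq).mul_const _)
    rw [zero_mul, add_zero] at ht
    exact ge_of_tendsto' ht fun n => hn n i
  · exfalso
    push Not at hB
    have hB' : B < 0 := by
      by_contra hh
      push Not at hh
      exact absurd (div_nonneg hh h1.le) (not_le.2 hB)
    have hn : ∀ n : ℕ, ∀ i, |f i| ≤ q ^ n * C0 := by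
      intro n
      induction n with
      | zero => intro i; simpa using hC0 i
      | succ n ih =>
        intro i
        have := h (q ^ n * C0) (by positivity) ih i
        have e : q * (q ^ n * C0) = q ^ (n + 1) * C0 := by ring
        rw [e] at this
        linarith
    have ht : Tendsto (fun n : ℕ => q ^ n * C0) atTop (𝓝 (0 * C0)) :=
      (tendsto_pow_atTop_nhds_zero_of_lt_one hq0 hq).mul_const _
    rw [zero_mul] at ht
    have h0 : |f i| ≤ 0 := ge_of_tendsto' ht fun n => hn n i
    have h2 := h 0 le_rfl (fun j => by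
      have : |f j| ≤ 0 := ge_of_tendsto' ht fun n => hn n j
      exact this) i
    linarith [abs_nonneg (f i)]

end

end Pool.Agent.X19.TR
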