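import Mathlib
import Pool.Agent.X19.TR.Op

open MeasureTheory Set Filter Topology Metric
open scoped ENNReal

namespace Pool.Agent.X19.TR

/-- the kernel `lam e^{-lam x}` -/
noncomputable def Fk (lam : ℝ) (x : ℝ) : ℝ := lam * Real.exp (-lam * x)

lemma Fk_cont (lam : ℝ) : Continuous (Fk lam) := by unfold Fk; fun_prop

lemma Fk_nonneg {lam : ℝ} (h : 0 < lam) (x : ℝ) : 0 ≤ Fk lam x := by unfold Fk; positivity

section
variable {V : Set E3} {R : ℝ}

noncomputable def fseq (V : Set E3) (lam : ℝ) (s : E3 × S2 → ℝ) : ℕ → E3 × S2 → ℝ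
  | 0 => s
  | n + 1 => opK V (Fk lam) (fseq V lam s n)

lemma qbound (hV : IsOpen V) (hVR : V ⊆ ball 0 R) {lam : ℝ} (hlam : 0 < lam) {f : E3 × S2 → ℝ}
    {C : ℝ} (hC0 : 0 ≤ C) (hC : ∀ r ∈ V, |avg f r| ≤ C) {r : E3} (hr : r ∈ V) (o : S2) :
    |opK V (Fk lam) f (r, o)| ≤ C * (1 - Real.exp (-lam * (2 * R))) := by
  have h := opK_le (k := Fk lam) (k' := Fk lam) hV hVR (Fk_cont lam) hC0 hC hr o
    (fun x _ => by rw [abs_of_nonneg (Fk_nonneg hlam x)])
  refine h.trans (mul_le_mul_of_nonneg_left ?_ hC0)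
  unfold Fk
  rw [integral_exp _ _ (exitDist_pos hV hVR hr o).le]
  have := exitDist_le hVR hr o
  have : Real.exp (-lam * (2 * R)) ≤ Real.exp (-lam * exitDist V r o) := by
    apply Real.exp_le_exp.2
    nlinarith
  linarith

lemma neumann (hV : IsOpen V) (hVR : V ⊆ ball 0 R) (hR : 0 < R) {lam : ℝ} (hlam : 0 < lam)
    {s : E3 × S2 → ℝ} (hs : Measurable s) {B : ℝ} (hB : ∀ P, |s P| ≤ B) :
    ∃ M : E3 × S2 → ℝ, Measurable M ∧ (∃ C, ∀ P, |M P| ≤ C) ∧
      ∀ r ∈ V, ∀ o, M (r, o) = s (r, o) + opK V (Fk lam) M (r, o) := by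
  have hB0 : 0 ≤ B := (abs_nonneg _).trans (hB (0, ⟨EuclideanSpace.single 0 1, by simp⟩))
  set q := 1 - Real.exp (-lam * (2 * R)) with hq
  have hexp : Real.exp (-lam * (2 * R)) < 1 := by
    rw [Real.exp_lt_one_iff]; nlinarith
  have hq0 : 0 ≤ q := by rw [hq]; linarith
  have hq1 : q < 1 := by rw [hq]; linarith [Real.exp_pos (-lam * (2 * R))]
  set f := fseq V lam s with hf
  have hfm : ∀ n, Measurable (f n) := by
    intro n
    induction n with
    | zero => exact hs
    | succ n ih => exact opK_measurable hV hVR (Fk_cont lam).measurable ih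
  have hfb : ∀ n P, |f n P| ≤ B * q ^ n := by
    intro n
    induction n with
    | zero => intro P; rw [pow_zero, mul_one]; exact hB P
    | succ n ih =>
      rintro ⟨r, o⟩
      show |opK V (Fk lam) (f n) (r, o)| ≤ _
      by_cases hr : r ∈ V
      · have := qbound hV hVR hlam (f := f n) (C := B * q ^ n) (by positivity)
          (fun r' _ => abs_avg_le fun o' => ih _) hr o
        rw [← hq] at this
        rw [pow_succ, ← mul_assoc]
        exact this
      · rw [opK_of_notMem hr, abs_zero]; positivity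
  have hsum : ∀ P, Summable fun n => f n P := fun P =>
    Summable.of_norm_bounded ((summable_geometric_of_lt_one hq0 hq1).mul_left B)
      (fun n => by rw [Real.norm_eq_abs]; exact hfb n P)
  set M : E3 × S2 → ℝ := fun P => ∑' n, f n P with hM
  set S : ℕ → E3 × S2 → ℝ := fun n P => ∑ i ∈ Finset.range n, f i P with hS
  have hSm : ∀ n, Measurable (S n) := fun n => Finset.measurable_fun_sum _ fun i _ => hfm i
  have hSt : ∀ P, Tendsto (fun n => S n P) atTop (𝓝 (M P)) := fun P =>
    (hsum P).hasSum.tendsto_sum_nat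
  have hMm : Measurable M := by
    apply measurable_of_tendsto_metrizable hSm
    rw [tendsto_pi_nhds]
    exact hSt
  have hgs : Summable fun n : ℕ => B * q ^ n := (summable_geometric_of_lt_one hq0 hq1).mul_left B
  have htail : ∀ n P, |M P - S n P| ≤ B * q ^ n / (1 - q) := by
    intro n P
    have h1 := (hsum P).sum_add_tsum_nat_add n
    have h2 : M P - S n P = ∑' i, f (i + n) P := by
      simp only [hM, hS]; linarith
    rw [h2, ← Real.norm_eq_abs]
    have h3 : HasSum (fun i : ℕ => B * q ^ n * q ^ i) (B * q ^ n * (1 - q)⁻¹) :=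
      (hasSum_geometric_of_lt_one hq0 hq1).mul_left _
    have h4 := tsum_of_norm_bounded h3 (fun i => by
      rw [Real.norm_eq_abs]
      refine (hfb (i + n) P).trans (le_of_eq ?_)
      rw [pow_add]; ring)
    rw [div_eq_mul_inv]
    exact h4
  have hSb : ∀ n P, |S n P| ≤ B / (1 - q) := by
    intro n P
    calc |S n P| ≤ ∑ i ∈ Finset.range n, |f i P| := Finset.abs_sum_le_sum_abs _ _
      _ ≤ ∑ i ∈ Finset.range n, B * q ^ i := Finset.sum_le_sum fun i _ => hfb i P
      _ ≤ ∑' i, B * q ^ i := hgs.sum_le_tsum _ (fun i _ => by positivity)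
      _ = B / (1 - q) := by
        rw [tsum_mul_left, tsum_geometric_of_lt_one hq0 hq1, div_eq_mul_inv]
  have hMb : ∀ P, |M P| ≤ B / (1 - q) := fun P =>
    le_of_tendsto' ((hSt P).abs) fun n => hSb n P
  have hrec : ∀ n, ∀ r ∈ V, ∀ o, S (n + 1) (r, o) = s (r, o) + opK V (Fk lam) (S n) (r, o) := by
    intro n
    induction n with
    | zero =>
      intro r hr o
      have e : opK V (Fk lam) (S 0) (r, o) = 0 := by
        rw [opK_of_mem hr]
        simp [hS, avg]
      rw [e, add_zero]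
      simp only [hS, hf, zero_add, Finset.sum_range_one]
      rfl
    | succ n ih =>
      intro r hr o
      have e1 : S (n + 2) (r, o) = S (n + 1) (r, o) + f (n + 1) (r, o) := by
        simp only [hS]; rw [Finset.sum_range_succ]
      have e2 : (S (n + 1)) = fun P => S n P + f n P := by
        funext P; simp only [hS]; rw [Finset.sum_range_succ]
      have e3 : f (n + 1) (r, o) = opK V (Fk lam) (f n) (r, o) := rfl
      rw [e1, ih r hr o, e3]
      conv_rhs => rw [e2]
      rw [opK_add hV hVR (Fk_cont lam) (hSm n) (hfm n) (fun r _ o => hSb n (r, o))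
        (fun r _ o => hfb n (r, o)) hr o]
      ring
  refine ⟨M, hMm, ⟨_, hMb⟩, fun r hr o => ?_⟩
  have key : ∀ n, |M (r, o) - (s (r, o) + opK V (Fk lam) M (r, o))| ≤
      2 * (B / (1 - q)) * q ^ n := by
    intro n
    have e1 : M (r, o) - (s (r, o) + opK V (Fk lam) M (r, o)) =
        (M (r, o) - S (n + 1) (r, o)) - opK V (Fk lam) (fun P => M P - S n P) (r, o) := by
      rw [hrec n r hr o, opK_sub hV hVR (Fk_cont lam) hMm (hSm n) (fun r _ o => hMb (r, o))
        (fun r _ o => hSb n (r, o)) hr o]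
      ring
    rw [e1]
    have h1 := htail (n + 1) (r, o)
    have h2 := qbound hV hVR hlam (f := fun P => M P - S n P) (C := B * q ^ n / (1 - q))
      (by have : 0 < 1 - q := by linarith
          positivity)
      (fun r' _ => abs_avg_le fun o' => htail n _) hr o
    rw [← hq] at h2
    have h3 : B * q ^ (n + 1) / (1 - q) ≤ (B / (1 - q)) * q ^ n := by
      rw [pow_succ, div_mul_eq_mul_div]
      apply div_le_div_of_nonneg_right _ (by linarith)
      have : 0 ≤ B * q ^ n := by positivity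
      nlinarith
    have h4 : B * q ^ n / (1 - q) * q ≤ (B / (1 - q)) * q ^ n := by
      rw [div_mul_eq_mul_div, div_mul_eq_mul_div]
      apply div_le_div_of_nonneg_right _ (by linarith)
      have : 0 ≤ B * q ^ n := by positivity
      nlinarith
    calc |M (r, o) - S (n + 1) (r, o) - opK V (Fk lam) (fun P => M P - S n P) (r, o)|
        ≤ |M (r, o) - S (n + 1) (r, o)| + |opK V (Fk lam) (fun P => M P - S n P) (r, o)| :=
          abs_sub _ _
      _ ≤ B * q ^ (n + 1) / (1 - q) + B * q ^ n / (1 - q) * q := add_le_add h1 h2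
      _ ≤ _ := by linarith
  have ht : Tendsto (fun n : ℕ => 2 * (B / (1 - q)) * q ^ n) atTop (𝓝 (2 * (B / (1 - q)) * 0)) :=
    (tendsto_pow_atTop_nhds_zero_of_lt_one hq0 hq1).const_mul _
  rw [mul_zero] at ht
  have h0 : |M (r, o) - (s (r, o) + opK V (Fk lam) M (r, o))| ≤ 0 := ge_of_tendsto' ht key
  have h1 := abs_nonpos_iff.1 h0
  linarith

/-- uniqueness. -/
lemma unique_sol (hV : IsOpen V) (hVR : V ⊆ ball 0 R) (hR : 0 < R) {lam : ℝ} (hlam : 0 < lam)
    {s M M' : E3 × S2 → ℝ} (hM : Measurable M) (hM' : Measurable M')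
    {C C' : ℝ} (hC : ∀ r ∈ V, ∀ o, |M (r, o)| ≤ C) (hC' : ∀ r ∈ V, ∀ o, |M' (r, o)| ≤ C')
    (e : ∀ r ∈ V, ∀ o, M (r, o) = s (r, o) + opK V (Fk lam) M (r, o))
    (e' : ∀ r ∈ V, ∀ o, M' (r, o) = s (r, o) + opK V (Fk lam) M' (r, o)) :
    ∀ r ∈ V, ∀ o, M (r, o) = M' (r, o) := by
  have hexp : Real.exp (-lam * (2 * R)) < 1 := by
    rw [Real.exp_lt_one_iff]; nlinarith
  have h := closing (ι := V × S2) (fun i => M (i.1, i.2) - M' (i.1, i.2))
    (B := 0) (q := 1 - Real.exp (-lam * (2 * R))) (C0 := C + C') (by linarith)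
    (by linarith [Real.exp_pos (-lam * (2 * R))])
    (fun i => by
      calc |M (i.1, i.2) - M' (i.1, i.2)| ≤ |M (i.1, i.2)| + |M' (i.1, i.2)| := abs_sub _ _
        _ ≤ C + C' := add_le_add (hC _ i.1.2 _) (hC' _ i.1.2 _))
    (fun D hD hb i => by
      have e1 : M (i.1, i.2) - M' (i.1, i.2) =
          opK V (Fk lam) (fun P => M P - M' P) (i.1, i.2) := by
        rw [opK_sub hV hVR (Fk_cont lam) hM hM' hC hC' i.1.2 i.2, e _ i.1.2 i.2, e' _ i.1.2 i.2]
        ring
      rw [e1, zero_add, mul_comm]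
      exact qbound hV hVR hlam hD (fun r hr => abs_avg_le fun o => hb (⟨r, hr⟩, o)) i.1.2 i.2)
  intro r hr o
  have := h (⟨r, hr⟩, o)
  rw [zero_div] at this
  have := abs_nonpos_iff.1 this
  simp only at this
  linarith

end

end Pool.Agent.X19.TR
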