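import Mathlib
import Pool.Agent.X19.TR.Neumann

open MeasureTheory Set Filter Topology Metric
open scoped ENNReal

namespace Pool.Agent.X19.TR

noncomputable def k1 (x : ℝ) : ℝ := (1 - x) * Real.exp (-x)

lemma k1_cont : Continuous k1 := by unfold k1; fun_prop

/-- the source term `1 - e^{-D}`, extended by `0` off `V`. -/
noncomputable def src (V : Set E3) : E3 × S2 → ℝ := opK V (Fk 1) (fun _ => 1)

section
variable {V : Set E3} {R : ℝ}

lemma src_of_mem (hV : IsOpen V) (hVR : V ⊆ ball 0 R) {r : E3} (hr : r ∈ V) (o : S2) :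
    src V (r, o) = 1 - Real.exp (-exitDist V r o) := by
  unfold src
  rw [opK_of_mem hr]
  have : ∀ x : ℝ, Fk 1 x * avg (fun _ => (1:ℝ)) (r + x • (o : E3)) = 1 * Real.exp (-1 * x) := by
    intro x
    simp [avg, Fk]
  simp_rw [this]
  rw [integral_exp 1 _ (exitDist_pos hV hVR hr o).le]
  simp

lemma src_of_notMem {r : E3} (hr : r ∉ V) (o : S2) : src V (r, o) = 0 := opK_of_notMem hr o

lemma src_nonneg (hV : IsOpen V) (hVR : V ⊆ ball 0 R) (P : E3 × S2) : 0 ≤ src V P := by
  obtain ⟨r, o⟩ := P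
  by_cases hr : r ∈ V
  · rw [src_of_mem hV hVR hr, sub_nonneg, Real.exp_le_one_iff]
    linarith [exitDist_pos hV hVR hr o]
  · rw [src_of_notMem hr]

lemma src_le_one (hV : IsOpen V) (hVR : V ⊆ ball 0 R) (P : E3 × S2) : src V P ≤ 1 := by
  obtain ⟨r, o⟩ := P
  by_cases hr : r ∈ V
  · rw [src_of_mem hV hVR hr]; linarith [Real.exp_pos (-exitDist V r o)]
  · rw [src_of_notMem hr]; norm_num

lemma src_meas (hV : IsOpen V) (hVR : V ⊆ ball 0 R) : Measurable (src V) :=
  opK_measurable hV hVR (Fk_cont 1).measurable measurable_const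

lemma opK_sub_k (hV : IsOpen V) (hVR : V ⊆ ball 0 R) {k k' : ℝ → ℝ} (hk : Continuous k)
    (hk' : Continuous k')
    {f : E3 × S2 → ℝ} (hf : Measurable f) {C : ℝ}
    (hC : ∀ r ∈ V, ∀ o, |f (r, o)| ≤ C)
    {r : E3} (hr : r ∈ V) (o : S2) :
    opK V (fun x => k x - k' x) f (r, o) = opK V k f (r, o) - opK V k' f (r, o) := by
  rw [opK_of_mem hr, opK_of_mem hr, opK_of_mem hr, ← integral_sub
    (line_integrable hV hVR hk hf hC hr o) (line_integrable hV hVR hk' hf hC hr o)]
  congr 1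
  funext x
  ring

lemma opK_smul_k {k : ℝ → ℝ} {f : E3 × S2 → ℝ} (c : ℝ)
    {r : E3} (hr : r ∈ V) (o : S2) :
    opK V (fun x => c * k x) f (r, o) = c * opK V k f (r, o) := by
  rw [opK_of_mem hr, opK_of_mem hr, ← integral_const_mul]
  congr 1
  funext x
  ring

lemma opK_smul_f {k : ℝ → ℝ} {f : E3 × S2 → ℝ} (c : ℝ)
    {r : E3} (hr : r ∈ V) (o : S2) :
    opK V k (fun P => c * f P) (r, o) = c * opK V k f (r, o) := by
  rw [opK_of_mem hr, opK_of_mem hr, ← integral_const_mul]
  congr 1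
  funext x
  unfold avg
  rw [integral_const_mul]
  ring

lemma kA_bound {L h x : ℝ} (hx0 : 0 ≤ x) (hxL : x ≤ L) (hh : |h| ≤ 1 / 2)
    (hhL : |h| * L ≤ 1) :
    |Fk (1 + h) x - Fk 1 x - h * k1 x| ≤ h ^ 2 * (2 * L ^ 2 + L) ∧
      |Fk (1 + h) x - Fk 1 x| ≤ |h| * (3 * L + 1) := by
  have hy : |-(h * x)| ≤ 1 := by
    rw [abs_neg, abs_mul, abs_of_nonneg hx0]
    exact (mul_le_mul_of_nonneg_left hxL (abs_nonneg _)).trans hhL
  have e1 := Real.abs_exp_sub_one_sub_id_le hy
  have e2 := Real.abs_exp_sub_one_le hy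
  have ex : Real.exp (-x) ≤ 1 := Real.exp_le_one_iff.2 (by linarith)
  have ex0 := Real.exp_pos (-x)
  have hF : Fk (1 + h) x = (1 + h) * (Real.exp (-x) * Real.exp (-(h * x))) := by
    unfold Fk
    rw [← Real.exp_add]
    congr 2
    ring
  have hF1 : Fk 1 x = Real.exp (-x) := by unfold Fk; simp
  have h1 : |1 + h| ≤ 3 / 2 := by
    rw [abs_le] at hh ⊢
    constructor <;> linarith [hh.1, hh.2]
  constructor
  · have e : Fk (1 + h) x - Fk 1 x - h * k1 x =
        Real.exp (-x) * ((1 + h) * (Real.exp (-(h * x)) - 1 - -(h * x)) - h ^ 2 * x) := by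
      rw [hF, hF1]; unfold k1; ring
    rw [e, abs_mul, abs_of_pos ex0]
    calc Real.exp (-x) * |(1 + h) * (Real.exp (-(h * x)) - 1 - -(h * x)) - h ^ 2 * x|
        ≤ 1 * |(1 + h) * (Real.exp (-(h * x)) - 1 - -(h * x)) - h ^ 2 * x| :=
          mul_le_mul_of_nonneg_right ex (abs_nonneg _)
      _ ≤ |(1 + h) * (Real.exp (-(h * x)) - 1 - -(h * x))| + |h ^ 2 * x| := by
          rw [one_mul]; exact abs_sub _ _
      _ ≤ 3 / 2 * (-(h * x)) ^ 2 + h ^ 2 * L := by
          rw [abs_mul]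
          apply add_le_add
          · exact mul_le_mul h1 e1 (abs_nonneg _) (by norm_num)
          · rw [abs_of_nonneg (by positivity)]
            exact mul_le_mul_of_nonneg_left hxL (sq_nonneg _)
      _ ≤ h ^ 2 * (2 * L ^ 2 + L) := by
          have : x ^ 2 ≤ L ^ 2 := pow_le_pow_left₀ hx0 hxL 2
          have h2 := sq_nonneg h
          nlinarith [mul_nonneg h2 (sq_nonneg L), mul_le_mul_of_nonneg_left this h2]
  · have e : Fk (1 + h) x - Fk 1 x =
        Real.exp (-x) * ((1 + h) * (Real.exp (-(h * x)) - 1) + h) := by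
      rw [hF, hF1]; ring
    rw [e, abs_mul, abs_of_pos ex0]
    calc Real.exp (-x) * |(1 + h) * (Real.exp (-(h * x)) - 1) + h|
        ≤ 1 * |(1 + h) * (Real.exp (-(h * x)) - 1) + h| :=
          mul_le_mul_of_nonneg_right ex (abs_nonneg _)
      _ ≤ |(1 + h) * (Real.exp (-(h * x)) - 1)| + |h| := by
          rw [one_mul]; exact abs_add_le _ _
      _ ≤ 3 / 2 * (2 * (|h| * L)) + |h| := by
          rw [abs_mul]
          have : |-(h * x)| ≤ |h| * L := by
            rw [abs_neg, abs_mul, abs_of_nonneg hx0]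
            exact mul_le_mul_of_nonneg_left hxL (abs_nonneg _)
          have : |Real.exp (-(h * x)) - 1| ≤ 2 * (|h| * L) := by linarith
          exact add_le_add (mul_le_mul h1 this (abs_nonneg _) (by norm_num)) le_rfl
      _ = |h| * (3 * L + 1) := by ring

lemma opK_const_le (hV : IsOpen V) (hVR : V ⊆ ball 0 R) {k : ℝ → ℝ}
    {f : E3 × S2 → ℝ} {C c : ℝ} (hc : 0 ≤ c)
    (hC0 : 0 ≤ C)
    (hC : ∀ r ∈ V, |avg f r| ≤ C) {r : E3} (hr : r ∈ V) (o : S2)
    (hkk : ∀ x ∈ Ioo 0 (exitDist V r o), |k x| ≤ c) :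
    |opK V k f (r, o)| ≤ C * (c * (2 * R)) := by
  have h := opK_le (k' := fun _ => c) hV hVR continuous_const hC0 hC hr o hkk
  refine h.trans (mul_le_mul_of_nonneg_left ?_ hC0)
  have hD := exitDist_pos hV hVR hr o
  have : ∫ _x in Ioo 0 (exitDist V r o), c = exitDist V r o * c := by
    simp [hD.le]
  rw [this, mul_comm]
  exact mul_le_mul_of_nonneg_left (exitDist_le hVR hr o) hc

theorem deriv_sol (hV : IsOpen V) (hVR : V ⊆ ball 0 R) (hR : 0 < R)
    {M : ℝ → E3 × S2 → ℝ} {N : E3 × S2 → ℝ}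
    (hMm : ∀ lam, 0 < lam → Measurable (M lam))
    (hMb : ∀ lam, 0 < lam → ∃ C, ∀ r ∈ V, ∀ o, |M lam (r, o)| ≤ C)
    (hM : ∀ lam, 0 < lam → ∀ r ∈ V, ∀ o,
      M lam (r, o) = src V (r, o) + opK V (Fk lam) (M lam) (r, o))
    (hNm : Measurable N) (hNb : ∃ C, ∀ r ∈ V, ∀ o, |N (r, o)| ≤ C)
    (hN : ∀ r ∈ V, ∀ o, N (r, o) = opK V k1 (M 1) (r, o) + opK V (Fk 1) N (r, o))
    {r : E3} (hr : r ∈ V) (o : S2) :
    HasDerivAt (fun lam => M lam (r, o)) (N (r, o)) 1 := by
  obtain ⟨C1, hC1⟩ := hMb 1 one_pos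
  obtain ⟨CN, hCN⟩ := hNb
  have hC10 : 0 ≤ C1 := (abs_nonneg _).trans (hC1 r hr o)
  have hCN0 : 0 ≤ CN := (abs_nonneg _).trans (hCN r hr o)
  set L := 2 * R with hL
  have hL0 : 0 < L := by positivity
  set K := C1 * ((2 * L ^ 2 + L) * L) + CN * ((3 * L + 1) * L) with hK
  have hK0 : 0 ≤ K := by positivity
  set h0 := min (1 / 2) (1 / L) with hh0
  have hh0pos : 0 < h0 := by
    rw [hh0]; apply lt_min <;> positivity
  have key : ∀ h : ℝ, |h| ≤ h0 →
      |M (1 + h) (r, o) - M 1 (r, o) - h * N (r, o)| ≤ h ^ 2 * (K / Real.exp (-(3 / 2) * L)) := by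
    intro h hh
    have hh2 : |h| ≤ 1 / 2 := hh.trans (min_le_left _ _)
    have hhL : |h| * L ≤ 1 := by
      have : |h| ≤ 1 / L := hh.trans (min_le_right _ _)
      rwa [le_div_iff₀ hL0] at this
    have hlam : 0 < 1 + h := by
      have := (abs_le.1 hh2).1; linarith
    have hlam2 : 1 + h ≤ 3 / 2 := by
      have := (abs_le.1 hh2).2; linarith
    obtain ⟨CL, hCL⟩ := hMb _ hlam
    set q := 1 - Real.exp (-(1 + h) * (2 * R)) with hq
    have hexp : Real.exp (-(1 + h) * (2 * R)) < 1 := by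
      rw [Real.exp_lt_one_iff]; nlinarith
    have hq1 : q < 1 := by rw [hq]; linarith [Real.exp_pos (-(1 + h) * (2 * R))]
    have hq0 : 0 ≤ q := by rw [hq]; linarith
    have hcl := closing (ι := V × S2)
      (fun i => M (1 + h) (i.1, i.2) - M 1 (i.1, i.2) - h * N (i.1, i.2))
      (B := h ^ 2 * K) (q := q) (C0 := CL + C1 + |h| * CN) hq0 hq1
      (fun i => by
        calc |M (1 + h) (i.1, i.2) - M 1 (i.1, i.2) - h * N (i.1, i.2)|
            ≤ |M (1 + h) (i.1, i.2) - M 1 (i.1, i.2)| + |h * N (i.1, i.2)| := abs_sub _ _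
          _ ≤ |M (1 + h) (i.1, i.2)| + |M 1 (i.1, i.2)| + |h * N (i.1, i.2)| := by
            gcongr; exact abs_sub _ _
          _ ≤ CL + C1 + |h| * CN := by
            rw [abs_mul]
            gcongr
            · exact hCL _ i.1.2 _
            · exact hC1 _ i.1.2 _
            · exact hCN _ i.1.2 _)
      (fun D hD hb i => by
        obtain ⟨⟨r', hr'⟩, o'⟩ := i
        have hm1 := hMm 1 one_pos
        have hmL := hMm _ hlam
        have eE : opK V (Fk (1 + h)) (fun P => M (1 + h) P - M 1 P - h * N P) (r', o') =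
            opK V (Fk (1 + h)) (M (1 + h)) (r', o') - opK V (Fk (1 + h)) (M 1) (r', o') -
              h * opK V (Fk (1 + h)) N (r', o') := by
          rw [opK_sub (f := fun P => M (1 + h) P - M 1 P) (g := fun P => h * N P)
            (C := CL + C1) (C' := |h| * CN) hV hVR (Fk_cont _) (hmL.sub hm1)
            (hNm.const_mul h)
            (fun r hr o => (abs_sub _ _).trans (add_le_add (hCL r hr o) (hC1 r hr o)))
            (fun r hr o => by rw [abs_mul]; gcongr; exact hCN r hr o) hr' o',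
            opK_sub hV hVR (Fk_cont _) hmL hm1 hCL hC1 hr' o', opK_smul_f h hr' o']
        have eA : opK V (fun x => Fk (1 + h) x - Fk 1 x - h * k1 x) (M 1) (r', o') =
            opK V (Fk (1 + h)) (M 1) (r', o') - opK V (Fk 1) (M 1) (r', o') -
              h * opK V k1 (M 1) (r', o') := by
          rw [opK_sub_k (k := fun x => Fk (1 + h) x - Fk 1 x) (k' := fun x => h * k1 x) hV hVR
            ((Fk_cont _).sub (Fk_cont _)) (continuous_const.mul k1_cont) hm1 hC1 hr' o',
            opK_sub_k hV hVR (Fk_cont _) (Fk_cont _) hm1 hC1 hr' o', opK_smul_k h hr' o']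
        have eB : opK V (fun x => Fk (1 + h) x - Fk 1 x) N (r', o') =
            opK V (Fk (1 + h)) N (r', o') - opK V (Fk 1) N (r', o') :=
          opK_sub_k hV hVR (Fk_cont _) (Fk_cont _) hNm hCN hr' o'
        have e : M (1 + h) (r', o') - M 1 (r', o') - h * N (r', o') =
            opK V (Fk (1 + h)) (fun P => M (1 + h) P - M 1 P - h * N P) (r', o') +
            (opK V (fun x => Fk (1 + h) x - Fk 1 x - h * k1 x) (M 1) (r', o') +
            h * opK V (fun x => Fk (1 + h) x - Fk 1 x) N (r', o')) := by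
          rw [eE, eA, eB, hM _ hlam r' hr' o', hM 1 one_pos r' hr' o', hN r' hr' o']
          ring
        have b1 := qbound (f := fun P => M (1 + h) P - M 1 P - h * N P) hV hVR hlam hD
          (fun r hr => abs_avg_le fun o => hb (⟨r, hr⟩, o)) hr' o'
        have b2 := opK_const_le (k := fun x => Fk (1 + h) x - Fk 1 x - h * k1 x) (f := M 1)
          (C := C1) (c := h ^ 2 * (2 * L ^ 2 + L)) hV hVR (by positivity) hC10
          (fun r hr => abs_avg_le fun o => hC1 r hr o) hr' o'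
          (fun x hx => (kA_bound hx.1.le (hx.2.le.trans (exitDist_le hVR hr' o')) hh2 hhL).1)
        have b3 := opK_const_le (k := fun x => Fk (1 + h) x - Fk 1 x) (f := N)
          (C := CN) (c := |h| * (3 * L + 1)) hV hVR (by positivity) hCN0
          (fun r hr => abs_avg_le fun o => hCN r hr o) hr' o'
          (fun x hx => (kA_bound hx.1.le (hx.2.le.trans (exitDist_le hVR hr' o')) hh2 hhL).2)
        rw [← hq] at b1
        rw [← hL] at b2 b3
        show |M (1 + h) (r', o') - M 1 (r', o') - h * N (r', o')| ≤ _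
        rw [e]
        calc _ ≤ |opK V (Fk (1 + h)) (fun P => M (1 + h) P - M 1 P - h * N P) (r', o')| +
              (|opK V (fun x => Fk (1 + h) x - Fk 1 x - h * k1 x) (M 1) (r', o')| +
              |h * opK V (fun x => Fk (1 + h) x - Fk 1 x) N (r', o')|) :=
              (abs_add_le _ _).trans (add_le_add le_rfl (abs_add_le _ _))
          _ ≤ D * q + (C1 * (h ^ 2 * (2 * L ^ 2 + L) * L) +
              |h| * (CN * (|h| * (3 * L + 1) * L))) := by
              rw [abs_mul h]
              gcongr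
          _ = h ^ 2 * K + q * D := by
              rw [hK, ← sq_abs h]; ring)
    have h1 := hcl (⟨r, hr⟩, o)
    refine h1.trans ?_
    rw [mul_div_assoc]
    apply mul_le_mul_of_nonneg_left _ (sq_nonneg h)
    apply div_le_div_of_nonneg_left hK0 (Real.exp_pos _)
    rw [hq]
    have : Real.exp (-(3 / 2) * L) ≤ Real.exp (-(1 + h) * (2 * R)) := by
      apply Real.exp_le_exp.2
      rw [← hL]
      nlinarith
    linarith
  rw [hasDerivAt_iff_isLittleO_nhds_zero]
  have hO : (fun h : ℝ => M (1 + h) (r, o) - M 1 (r, o) - h • N (r, o)) =O[𝓝 0]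
      fun h => h ^ 2 := by
    apply Asymptotics.IsBigO.of_bound (K / Real.exp (-(3 / 2) * L))
    have : ∀ᶠ h : ℝ in 𝓝 0, |h| ≤ h0 := by
      have : ∀ᶠ h : ℝ in 𝓝 0, |h| < h0 := by
        have hc : ContinuousAt (fun h : ℝ => |h|) 0 := continuous_abs.continuousAt
        exact hc.eventually (gt_mem_nhds (by simpa using hh0pos))
      exact this.mono fun h hh => hh.le
    filter_upwards [this] with h hh
    rw [Real.norm_eq_abs, Real.norm_eq_abs, abs_of_nonneg (sq_nonneg h), smul_eq_mul,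
      mul_comm _ (h ^ 2)]
    exact key h hh
  apply hO.trans_isLittleO
  have := Asymptotics.isLittleO_pow_id (𝕜 := ℝ) (n := 2) (by norm_num)
  simpa using this

end

end Pool.Agent.X19.TR
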