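import Mathlib
import Pool.Agent.X19.TR.Deriv

open MeasureTheory Set Filter Topology Metric
open scoped ENNReal Pointwise

namespace Pool.Agent.X19.TR

lemma coord_le_one (o : S2) (i : Fin 3) : |(o : E3) i| ≤ 1 := by
  have h1 := norm_S2 o
  have h2 : ‖(o : E3) i‖ ≤ ‖(o : E3)‖ := PiLp.norm_apply_le _ i
  rwa [h1, Real.norm_eq_abs] at h2

def strip (s : ℝ) : Set S2 := {o : S2 | |(o : E3) 1| < s ∧ |(o : E3) 2| < s}

lemma strip_meas (s : ℝ) : MeasurableSet (strip s) := by
  have hc : ∀ i : Fin 3, Continuous fun o : S2 => |(o : E3) i| := fun i => by fun_prop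
  have h1 : IsOpen (strip s) :=
    (isOpen_lt (hc 1) continuous_const).inter (isOpen_lt (hc 2) continuous_const)
  exact h1.measurableSet

lemma tau_strip {s : ℝ} (hs : 0 < s) : tau (strip s) ≤ ENNReal.ofReal (2 * s ^ 2) := by
  have hdim : Module.finrank ℝ E3 = 3 := by simp
  set a : Fin 3 → ℝ := ![1, s, s] with ha
  set B : Set E3 := (@WithLp.ofLp 2 (Fin 3 → ℝ)) ⁻¹' (Set.pi univ fun i => Ioo (-a i) (a i)) with hB
  have hBvol : volume B = ENNReal.ofReal (8 * s ^ 2) := by
    rw [hB, (PiLp.volume_preserving_ofLp (Fin 3)).measure_preimage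
      (MeasurableSet.univ_pi fun i => measurableSet_Ioo).nullMeasurableSet, Real.volume_pi_Ioo,
      Fin.prod_univ_three]
    simp only [ha, Matrix.cons_val_zero, Matrix.cons_val_one, Matrix.cons_val]
    rw [← ENNReal.ofReal_mul (by norm_num), ← ENNReal.ofReal_mul (by nlinarith)]
    congr 1
    ring
  have hsub : Ioo (0:ℝ) 1 • ((fun o : S2 => (o : E3)) '' strip s) ⊆ B := by
    rintro p ⟨t, ht, _, ⟨o, ho, rfl⟩, rfl⟩
    simp only [hB, mem_preimage, mem_univ_pi]
    intro i
    have ht1 : |t| < 1 := by rw [abs_of_pos ht.1]; exact ht.2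
    have hti : (t • (o : E3)) i = t * (o : E3) i := by simp
    show (t • (o : E3)) i ∈ Ioo (-a i) (a i)
    rw [hti, mem_Ioo, ← abs_lt, abs_mul]
    fin_cases i
    · simp only [ha]
      have := coord_le_one o 0
      calc |t| * |(o : E3) 0| ≤ |t| * 1 := by gcongr
        _ < 1 := by linarith
    · simp only [ha]
      calc |t| * |(o : E3) 1| ≤ 1 * |(o : E3) 1| := by gcongr
        _ < s := by rw [one_mul]; exact ho.1
    · simp only [ha]
      calc |t| * |(o : E3) 2| ≤ 1 * |(o : E3) 2| := by gcongr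
        _ < s := by rw [one_mul]; exact ho.2
  have h1 : surf (strip s) ≤ ENNReal.ofReal (24 * s ^ 2) := by
    unfold surf
    rw [Measure.toSphere_apply' _ (strip_meas s), hdim]
    calc ((3:ℕ):ℝ≥0∞) * volume (Ioo (0:ℝ) 1 • ((fun o : S2 => (o : E3)) '' strip s))
        ≤ (3:ℕ) * volume B := by gcongr
      _ = ENNReal.ofReal (24 * s ^ 2) := by
        rw [hBvol, show ((3:ℕ) : ℝ≥0∞) = ENNReal.ofReal 3 by simp,
          ← ENNReal.ofReal_mul (by norm_num)]
        congr 1
        ring
  unfold tau
  rw [Measure.smul_apply, smul_eq_mul, ← ENNReal.ofReal_inv_of_pos (by positivity)]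
  calc ENNReal.ofReal ((4 * Real.pi)⁻¹) * surf (strip s)
      ≤ ENNReal.ofReal ((4 * Real.pi)⁻¹) * ENNReal.ofReal (24 * s ^ 2) := by gcongr
    _ = ENNReal.ofReal ((4 * Real.pi)⁻¹ * (24 * s ^ 2)) := by
      rw [← ENNReal.ofReal_mul (by positivity)]
    _ ≤ ENNReal.ofReal (2 * s ^ 2) := by
      apply ENNReal.ofReal_le_ofReal
      have hpi := Real.pi_gt_three
      rw [inv_mul_le_iff₀ (by positivity)]
      nlinarith [sq_nonneg s]

section
variable {V : Set E3} {R : ℝ}

/-- basic estimate of the average of the source. -/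
lemma avg_src_le (hV : IsOpen V) (hVR : V ⊆ ball 0 R) {r : E3} (hr : r ∈ V) {u s : ℝ}
    (hu : 0 < u) (hs : 0 < s)
    (h : ∀ o : S2, u < exitDist V r o → o ∈ strip s) :
    avg (src V) r ≤ u + 2 * s ^ 2 := by
  have h1 : avg (src V) r ≤ ∫ o, (u + (strip s).indicator (fun _ => (1:ℝ)) o) ∂tau := by
    unfold avg
    apply integral_mono
    · exact slice_integrable (src_meas hV hVR) (C := 1)
        (fun o => by rw [abs_of_nonneg (src_nonneg hV hVR _)]; exact src_le_one hV hVR _)
    · exact (integrable_const u).add ((integrable_const (1:ℝ)).indicator (strip_meas s))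
    · intro o
      simp only
      by_cases ho : u < exitDist V r o
      · rw [indicator_of_mem (h o ho)]
        linarith [src_le_one hV hVR (r, o)]
      · have h2 : 0 ≤ (strip s).indicator (fun _ => (1:ℝ)) o :=
          indicator_nonneg (fun _ _ => zero_le_one) _
        rw [src_of_mem hV hVR hr]
        have h3 := Real.add_one_le_exp (-exitDist V r o)
        push Not at ho
        linarith
  refine h1.trans ?_
  rw [integral_add (integrable_const u) ((integrable_const (1:ℝ)).indicator (strip_meas s)),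
    integral_indicator (strip_meas s)]
  simp only [integral_const, probReal_univ, smul_eq_mul, one_mul, mul_one,
    measureReal_restrict_apply_univ]
  have h4 : tau.real (strip s) ≤ 2 * s ^ 2 := by
    rw [Measure.real]
    exact ENNReal.toReal_le_of_le_ofReal (by positivity) (tau_strip hs)
  linarith

end

end Pool.Agent.X19.TR
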