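import Mathlib
import Pool.Agent.X19.TR.Surf

open MeasureTheory Set Filter Topology Metric
open scoped ENNReal

namespace Pool.Agent.X19.TR

/-- a thin box `-1 < x < 4` of half-width `d` with a fatter part `2 < x < 4` of half-width `e`. -/
def dom (d e : ℝ) : Set E3 :=
  {p | |p 1| < e ∧ |p 2| < e ∧ -1 < p 0 ∧ p 0 < 4 ∧ (2 < p 0 ∨ (|p 1| < d ∧ |p 2| < d))}

lemma dom_open (d e : ℝ) : IsOpen (dom d e) := by
  have c0 : Continuous fun p : E3 => p 0 := by fun_prop
  have c1 : Continuous fun p : E3 => |p 1| := by fun_prop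
  have c2 : Continuous fun p : E3 => |p 2| := by fun_prop
  exact (isOpen_lt c1 continuous_const).inter ((isOpen_lt c2 continuous_const).inter
    ((isOpen_lt continuous_const c0).inter ((isOpen_lt c0 continuous_const).inter
      ((isOpen_lt continuous_const c0).union
        ((isOpen_lt c1 continuous_const).inter (isOpen_lt c2 continuous_const))))))

lemma dom_sub {d e : ℝ} (he : e ≤ 1 / 2) : dom d e ⊆ ball 0 5 := by
  rintro p ⟨h1, h2, h3, h4, _⟩
  rw [mem_ball_zero_iff, EuclideanSpace.norm_eq, Fin.sum_univ_three]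
  rw [Real.sqrt_lt' (by norm_num)]
  simp only [Real.norm_eq_abs, sq_abs]
  have a1 : p 1 ^ 2 < 1 := by
    rw [sq_lt_one_iff_abs_lt_one]; linarith
  have a2 : p 2 ^ 2 < 1 := by
    rw [sq_lt_one_iff_abs_lt_one]; linarith
  nlinarith

noncomputable def pt (x : ℝ) : E3 := EuclideanSpace.single 0 x

@[simp] lemma pt_0 (x : ℝ) : (pt x) 0 = x := by simp [pt]
@[simp] lemma pt_1 (x : ℝ) : (pt x) 1 = 0 := by simp [pt]
@[simp] lemma pt_2 (x : ℝ) : (pt x) 2 = 0 := by simp [pt]

noncomputable def e0 : S2 := ⟨EuclideanSpace.single 0 1, by simp⟩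

lemma ray (x : ℝ) : pt 0 + x • (e0 : E3) = pt x := by
  ext i
  fin_cases i <;> simp [pt, e0]

lemma pt_mem {d e x : ℝ} (hd : 0 < d) (he : 0 < e) (h1 : -1 < x) (h2 : x < 4) : pt x ∈ dom d e := by
  refine ⟨by simpa using he, by simpa using he, by simpa using h1, by simpa using h2, Or.inr ?_⟩
  exact ⟨by simpa using hd, by simpa using hd⟩

lemma exit_zero {d e : ℝ} (hd : 0 < d) (he : 0 < e) (he2 : e ≤ 1 / 2) :
    exitDist (dom d e) (pt 0) e0 = 4 := by
  have hm : pt 0 ∈ dom d e := pt_mem hd he (by norm_num) (by norm_num)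
  apply le_antisymm
  · apply csInf_le ⟨0, fun t ht => ht.1.le⟩
    refine ⟨by norm_num, ?_⟩
    rw [ray]
    intro h
    have := h.2.2.2.1
    simp at this
  · apply le_of_forall_lt
    intro c hc
    rw [lt_exitDist_iff (dom_open d e) (dom_sub he2) hm]
    intro t ht
    rw [ray]
    exact pt_mem hd he (by linarith [ht.1]) (by linarith [ht.2])

lemma smul_coord (r : E3) (t : ℝ) (o : S2) (i : Fin 3) :
    (r + t • (o : E3)) i = r i + t * (o : E3) i := by simp

lemma avg_src_all {d e : ℝ} (he2 : e ≤ 1 / 2) {r : E3}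
    (hr : r ∈ dom d e) {u : ℝ} (hu : 0 < u) (he : 0 < e) :
    avg (src (dom d e)) r ≤ u + 2 * (2 * e / u) ^ 2 := by
  apply avg_src_le (dom_open d e) (dom_sub he2) hr hu (by positivity)
  intro o ho
  rw [lt_exitDist_iff (dom_open d e) (dom_sub he2) hr] at ho
  have h := ho u ⟨hu.le, le_rfl⟩
  have h1 := h.1
  have h2 := h.2.1
  rw [smul_coord] at h1 h2
  have hr1 := hr.1
  have hr2 := hr.2.1
  have key : ∀ a b : ℝ, |a| < e → |a + u * b| < e → |b| < 2 * e / u := by
    intro a b ha hb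
    rw [lt_div_iff₀ hu]
    rw [abs_lt] at ha hb
    have : |b * u| < 2 * e := by
      rw [abs_lt]; constructor <;> nlinarith [ha.1, ha.2, hb.1, hb.2]
    rwa [abs_mul, abs_of_pos hu] at this
  exact ⟨key _ _ hr1 h1, key _ _ hr2 h2⟩

lemma avg_src_thin {d e x : ℝ} (hd : 0 < d) (he : 0 < e) (he2 : e ≤ 1 / 2)
    (hx0 : 0 ≤ x) (hx1 : x ≤ 1) {u : ℝ} (hu : 0 < u) (hu1 : u ≤ 1) :
    avg (src (dom d e)) (pt x) ≤ u + 2 * (d / u) ^ 2 := by
  have hm : pt x ∈ dom d e := pt_mem hd he (by linarith) (by linarith)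
  apply avg_src_le (dom_open d e) (dom_sub he2) hm hu (by positivity)
  intro o ho
  rw [lt_exitDist_iff (dom_open d e) (dom_sub he2) hm] at ho
  have h := ho u ⟨hu.le, le_rfl⟩
  have h0 : (pt x + u • (o : E3)) 0 ≤ 2 := by
    rw [smul_coord, pt_0]
    have := (abs_le.1 (coord_le_one o 0)).2
    nlinarith
  rcases h.2.2.2.2 with h3 | h3
  · linarith
  · have h4 := h3.1
    have h5 := h3.2
    rw [smul_coord] at h4 h5
    simp only [pt_1, pt_2, zero_add, abs_mul, abs_of_pos hu] at h4 h5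
    refine ⟨?_, ?_⟩
    · rw [lt_div_iff₀ hu]; linarith
    · rw [lt_div_iff₀ hu]; linarith

lemma src_fat {d e x : ℝ} (hd : 0 < d) (he : 0 < e) (he2 : e ≤ 1 / 2)
    (hx0 : 5 / 2 ≤ x) (hx1 : x ≤ 7 / 2) (o : S2) : e / 2 ≤ src (dom d e) (pt x, o) := by
  have hm : pt x ∈ dom d e := pt_mem hd he (by linarith) (by linarith)
  have hD : e ≤ exitDist (dom d e) (pt x) o := by
    apply le_of_forall_lt
    intro c hc
    rw [lt_exitDist_iff (dom_open d e) (dom_sub he2) hm]
    intro t ht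
    have ht0 := ht.1
    have hte : t < e := lt_of_le_of_lt ht.2 hc
    have b : ∀ i, |t * (o : E3) i| ≤ t := by
      intro i
      rw [abs_mul, abs_of_nonneg ht0]
      have := coord_le_one o i
      nlinarith
    have b0 := abs_le.1 (b 0)
    refine ⟨?_, ?_, ?_, ?_, Or.inl ?_⟩
    · rw [smul_coord, pt_1, zero_add]; exact lt_of_le_of_lt (b 1) hte
    · rw [smul_coord, pt_2, zero_add]; exact lt_of_le_of_lt (b 2) hte
    · rw [smul_coord, pt_0]; linarith [b0.1]
    · rw [smul_coord, pt_0]; linarith [b0.2]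
    · rw [smul_coord, pt_0]; linarith [b0.1]
  rw [src_of_mem (dom_open d e) (dom_sub he2) hm]
  have h1 : Real.exp (-exitDist (dom d e) (pt x) o) ≤ Real.exp (-e) := by
    apply Real.exp_le_exp.2; linarith
  have h2 : Real.exp (-e) ≤ 1 / (1 + e) := by
    rw [Real.exp_neg, ← one_div]
    apply one_div_le_one_div_of_le (by linarith)
    linarith [Real.add_one_le_exp e]
  have h3 : 1 / (1 + e) ≤ 1 - e / 2 := by
    rw [div_le_iff₀ (by linarith)]
    nlinarith
  linarith

section
variable {V : Set E3} {R : ℝ}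

lemma opK_F_le (hV : IsOpen V) (hVR : V ⊆ ball 0 R) {f : E3 × S2 → ℝ} {C : ℝ}
    (hC0 : 0 ≤ C) (hC : ∀ r ∈ V, |avg f r| ≤ C) {r : E3} (hr : r ∈ V) (o : S2) :
    |opK V (Fk 1) f (r, o)| ≤ C * src V (r, o) := by
  have h := opK_le (k := Fk 1) (k' := Fk 1) hV hVR (Fk_cont 1) hC0 hC hr o
    (fun x _ => by rw [abs_of_nonneg (Fk_nonneg one_pos x)])
  refine h.trans (mul_le_mul_of_nonneg_left ?_ hC0)
  unfold Fk
  rw [integral_exp _ _ (exitDist_pos hV hVR hr o).le, src_of_mem hV hVR hr]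
  simp

lemma opK_k1_le (hV : IsOpen V) (hVR : V ⊆ ball 0 5) {f : E3 × S2 → ℝ} {C : ℝ}
    (hC0 : 0 ≤ C) (hC : ∀ r ∈ V, |avg f r| ≤ C) {r : E3} (hr : r ∈ V) (o : S2) :
    |opK V k1 f (r, o)| ≤ 10 * C * src V (r, o) := by
  have h := opK_le (k := k1) (k' := fun x => 10 * Fk 1 x) hV hVR
    (continuous_const.mul (Fk_cont 1)) hC0 hC hr o
    (fun x hx => by
      have h1 := exitDist_le hVR hr o
      unfold k1 Fk
      rw [abs_mul, abs_of_pos (Real.exp_pos _)]
      have h2 : |1 - x| ≤ 10 := by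
        rw [abs_le]; constructor <;> linarith [hx.1, hx.2]
      have h3 := Real.exp_pos (-x)
      rw [one_mul, neg_one_mul]
      exact mul_le_mul_of_nonneg_right h2 h3.le)
  refine h.trans (le_of_eq ?_)
  rw [integral_const_mul]
  have : ∫ x in Ioo 0 (exitDist V r o), Fk 1 x = src V (r, o) := by
    unfold Fk
    rw [integral_exp _ _ (exitDist_pos hV hVR hr o).le, src_of_mem hV hVR hr]
    simp
  rw [this]
  ring

lemma avg_abs_le (hV : IsOpen V) (hVR : V ⊆ ball 0 R) {f : E3 × S2 → ℝ} {c : ℝ} {r : E3}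
    (hf : ∀ o, |f (r, o)| ≤ c * src V (r, o)) : |avg f r| ≤ c * avg (src V) r := by
  unfold avg
  rw [← integral_const_mul, ← Real.norm_eq_abs]
  apply norm_integral_le_of_norm_le
  · apply Integrable.const_mul
    exact slice_integrable (src_meas hV hVR) (C := 1)
      (fun o => by rw [abs_of_nonneg (src_nonneg hV hVR _)]; exact src_le_one hV hVR _)
  · exact Eventually.of_forall fun o => by rw [Real.norm_eq_abs]; exact hf o

lemma avg_ge (hV : IsOpen V) (hVR : V ⊆ ball 0 R) {f : E3 × S2 → ℝ} (hfm : Measurable f) {c C : ℝ}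
    {r : E3} (hC : ∀ o, |f (r, o)| ≤ C)
    (hf : ∀ o, c * src V (r, o) ≤ f (r, o)) : c * avg (src V) r ≤ avg f r := by
  unfold avg
  rw [← integral_const_mul]
  apply integral_mono
  · apply Integrable.const_mul
    exact slice_integrable (src_meas hV hVR) (C := 1)
      (fun o => by rw [abs_of_nonneg (src_nonneg hV hVR _)]; exact src_le_one hV hVR _)
  · exact slice_integrable hfm hC
  · exact hf

lemma avg_src_nonneg (hV : IsOpen V) (hVR : V ⊆ ball 0 R) (r : E3) : 0 ≤ avg (src V) r :=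
  integral_nonneg fun o => src_nonneg hV hVR _

/-- bounds for `phi` and `nu`. -/
lemma phi_nu_bounds (hV : IsOpen V) (hVR : V ⊆ ball 0 5) {M N : E3 × S2 → ℝ}
    (hMm : Measurable M) {CM CN : ℝ}
    (hCM : ∀ r ∈ V, ∀ o, |M (r, o)| ≤ CM) (hCN : ∀ r ∈ V, ∀ o, |N (r, o)| ≤ CN)
    (hM : ∀ r ∈ V, ∀ o, M (r, o) = src V (r, o) + opK V (Fk 1) M (r, o))
    (hN : ∀ r ∈ V, ∀ o, N (r, o) = opK V k1 M (r, o) + opK V (Fk 1) N (r, o))
    {A : ℝ} (hA0 : 0 ≤ A) (hA : ∀ r ∈ V, avg (src V) r ≤ A) (hA1 : A ≤ 1 / 2) :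
    (∀ r ∈ V, |avg M r| ≤ (1 + 2 * A) * avg (src V) r) ∧
    (∀ r ∈ V, (1 - 2 * A) * avg (src V) r ≤ avg M r) ∧
    (∀ r ∈ V, |avg N r| ≤ 40 * A ^ 2) := by
  have hM1 : ∀ C, 0 ≤ C → (∀ r ∈ V, |avg M r| ≤ C) → ∀ r ∈ V, |avg M r| ≤
      (1 + C) * avg (src V) r := by
    intro C hC0 hC r hr
    apply avg_abs_le hV hVR
    intro o
    rw [hM r hr o]
    calc |src V (r, o) + opK V (Fk 1) M (r, o)| ≤ |src V (r, o)| + |opK V (Fk 1) M (r, o)| :=
          abs_add_le _ _
      _ ≤ src V (r, o) + C * src V (r, o) := by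
          rw [abs_of_nonneg (src_nonneg hV hVR _)]
          linarith [opK_F_le hV hVR hC0 hC hr o]
      _ = _ := by ring
  have hcl := closing (ι := V) (fun r => avg M r) (B := A) (q := A) (C0 := CM) hA0
    (by linarith) (fun r => abs_avg_le (hCM r r.2))
    (fun C hC0 hC r => by
      have h := hM1 C hC0 (fun r hr => hC ⟨r, hr⟩) r r.2
      have h2 := hA r r.2
      have : (1 + C) * avg (src V) r ≤ (1 + C) * A := by gcongr
      linarith)
  have hPhi : ∀ r ∈ V, |avg M r| ≤ 2 * A := by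
    intro r hr
    refine (hcl ⟨r, hr⟩).trans ?_
    rw [div_le_iff₀ (by linarith)]
    nlinarith
  have h2A : 0 ≤ 2 * A := by positivity
  have hN1 : ∀ C, 0 ≤ C → (∀ r ∈ V, |avg N r| ≤ C) → ∀ r ∈ V, |avg N r| ≤
      (20 * A + C) * avg (src V) r := by
    intro C hC0 hC r hr
    apply avg_abs_le hV hVR
    intro o
    rw [hN r hr o]
    have b1 := opK_k1_le hV hVR h2A hPhi hr o
    have b2 := opK_F_le hV hVR hC0 hC hr o
    calc _ ≤ |opK V k1 M (r, o)| + |opK V (Fk 1) N (r, o)| := abs_add_le _ _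
      _ ≤ 10 * (2 * A) * src V (r, o) + C * src V (r, o) := add_le_add b1 b2
      _ = _ := by ring
  have hclN := closing (ι := V) (fun r => avg N r) (B := 20 * A * A) (q := A) (C0 := CN) hA0
    (by linarith) (fun r => abs_avg_le (hCN r r.2))
    (fun C hC0 hC r => by
      have h := hN1 C hC0 (fun r hr => hC ⟨r, hr⟩) r r.2
      have h2 := hA r r.2
      have : (20 * A + C) * avg (src V) r ≤ (20 * A + C) * A := by gcongr
      linarith)
  refine ⟨fun r hr => hM1 (2 * A) h2A hPhi r hr, fun r hr => ?_, fun r hr => ?_⟩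
  · apply avg_ge hV hVR hMm (hCM r hr)
    intro o
    rw [hM r hr o]
    have := (abs_le.1 (opK_F_le hV hVR h2A hPhi hr o)).1
    linarith
  · refine (hclN ⟨r, hr⟩).trans ?_
    rw [div_le_iff₀ (by linarith)]
    nlinarith [sq_nonneg A, mul_nonneg hA0 (sq_nonneg A)]

end

/-- The derivative is negative. -/
lemma N_neg {d e : ℝ} (hd : 0 < d) (he : 0 < e) (he2 : e ≤ 1 / 2)
    {M N : E3 × S2 → ℝ} (hMm : Measurable M) (hNm : Measurable N) {CM CN : ℝ}
    (hCM : ∀ r ∈ dom d e, ∀ o, |M (r, o)| ≤ CM) (hCN : ∀ r ∈ dom d e, ∀ o, |N (r, o)| ≤ CN)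
    (hM : ∀ r ∈ dom d e, ∀ o, M (r, o) = src (dom d e) (r, o) + opK (dom d e) (Fk 1) M (r, o))
    (hN : ∀ r ∈ dom d e, ∀ o, N (r, o) = opK (dom d e) k1 M (r, o) + opK (dom d e) (Fk 1) N (r, o))
    {A al : ℝ} (hA0 : 0 ≤ A) (hA : ∀ r ∈ dom d e, avg (src (dom d e)) r ≤ A) (hA1 : A ≤ 1 / 4)
    (hal : ∀ x, 0 ≤ x → x ≤ 1 → avg (src (dom d e)) (pt x) ≤ al)
    (hfin : 4 * (40 * A ^ 2 + 2 * al) < 3 / 8 * Real.exp (-4) * e) :
    N (pt 0, e0) < 0 := by
  have hV := dom_open d e
  have hVR := dom_sub (d := d) he2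
  obtain ⟨b1, b2, b3⟩ := phi_nu_bounds hV hVR hMm hCM hCN hM hN hA0 hA (by linarith)
  have h0 : pt 0 ∈ dom d e := pt_mem hd he (by norm_num) (by norm_num)
  have hal0 : 0 ≤ al := (avg_src_nonneg hV hVR (pt 0)).trans (hal 0 le_rfl zero_le_one)
  have iA := line_integrable hV hVR k1_cont hMm hCM h0 e0
  have iB := line_integrable hV hVR (Fk_cont 1) hNm hCN h0 e0
  rw [hN _ h0 e0, opK_of_mem h0, opK_of_mem h0, ← integral_add iA iB]
  rw [exit_zero hd he he2] at iA iB ⊢
  simp only [ray] at iA iB ⊢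
  set kap := 3 / 8 * Real.exp (-4) * e with hkap
  have hb : ∀ x ∈ Ioo (0:ℝ) 4, k1 x * avg M (pt x) + Fk 1 x * avg N (pt x) ≤
      (40 * A ^ 2 + 2 * al) - (Icc (5/2:ℝ) (7/2)).indicator (fun _ => kap) x := by
    intro x hx
    have hxm : pt x ∈ dom d e := pt_mem hd he (by linarith [hx.1]) hx.2
    have p1 := b1 _ hxm
    have p2 := b2 _ hxm
    have p3 := b3 _ hxm
    have ps := avg_src_nonneg hV hVR (pt x)
    have hex : Real.exp (-x) ≤ 1 := Real.exp_le_one_iff.2 (by linarith [hx.1])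
    have hex0 := Real.exp_pos (-x)
    have hMn : 0 ≤ avg M (pt x) := by
      refine le_trans ?_ p2
      apply mul_nonneg (by linarith) ps
    have hNb : Fk 1 x * avg N (pt x) ≤ 40 * A ^ 2 := by
      unfold Fk
      rw [one_mul, neg_one_mul]
      have h3 := (abs_le.1 p3).2
      have h4 : 0 ≤ 40 * A ^ 2 := by positivity
      calc Real.exp (-x) * avg N (pt x) ≤ Real.exp (-x) * (40 * A ^ 2) := by gcongr
        _ ≤ 1 * (40 * A ^ 2) := by gcongr
        _ = _ := one_mul _
    by_cases hx2 : x ∈ Icc (5/2:ℝ) (7/2)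
    · rw [indicator_of_mem hx2]
      have hMl : e / 4 ≤ avg M (pt x) := by
        have h5 : e / 2 ≤ avg (src (dom d e)) (pt x) := by
          have : ∫ _, e / 2 ∂tau ≤ avg (src (dom d e)) (pt x) := by
            unfold avg
            apply integral_mono (integrable_const _)
            · exact slice_integrable (src_meas hV hVR) (C := 1)
                (fun o => by rw [abs_of_nonneg (src_nonneg hV hVR _)]; exact src_le_one hV hVR _)
            · intro o
              exact src_fat hd he he2 hx2.1 hx2.2 o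
          simpa using this
        nlinarith
      have hk : k1 x * avg M (pt x) ≤ -kap := by
        unfold k1
        have h6 : Real.exp (-4) ≤ Real.exp (-x) := Real.exp_le_exp.2 (by linarith [hx2.2])
        have h7 : 0 < Real.exp (-4) := Real.exp_pos _
        have h8 : (x - 1) * Real.exp (-x) * avg M (pt x) ≥ 3 / 2 * Real.exp (-4) * (e / 4) := by
          have : 3 / 2 * Real.exp (-4) ≤ (x - 1) * Real.exp (-x) := by
            apply mul_le_mul (by linarith [hx2.1]) h6 h7.le (by linarith [hx2.1])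
          apply mul_le_mul this hMl (by positivity)
          have := hx2.1
          have : 0 ≤ x - 1 := by linarith
          positivity
        rw [hkap]
        linarith
      linarith
    · rw [indicator_of_notMem hx2, sub_zero]
      have hk : k1 x * avg M (pt x) ≤ 2 * al := by
        unfold k1
        rcases le_or_gt x 1 with h1 | h1
        · have h2 := hal x hx.1.le h1
          have h3 : avg M (pt x) ≤ 2 * al := by
            refine ((le_abs_self _).trans p1).trans ?_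
            calc (1 + 2 * A) * avg (src (dom d e)) (pt x) ≤ 2 * avg (src (dom d e)) (pt x) := by
                  gcongr; linarith
              _ ≤ 2 * al := by gcongr
          calc (1 - x) * Real.exp (-x) * avg M (pt x) ≤ 1 * avg M (pt x) := by
                gcongr
                have : 0 ≤ 1 - x := by linarith
                nlinarith [hx.1]
            _ ≤ 2 * al := by rw [one_mul]; exact h3
        · have h2 : (1 - x) * Real.exp (-x) * avg M (pt x) ≤ 0 := by
            apply mul_nonpos_of_nonpos_of_nonneg _ hMn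
            apply mul_nonpos_of_nonpos_of_nonneg (by linarith) hex0.le
          linarith
      linarith
  have iC : Integrable (fun _ : ℝ => 40 * A ^ 2 + 2 * al) (volume.restrict (Ioo (0:ℝ) 4)) :=
    integrable_const _
  have iD : Integrable ((Icc (5/2:ℝ) (7/2)).indicator (fun _ => kap))
      (volume.restrict (Ioo (0:ℝ) 4)) :=
    (integrable_const kap).indicator measurableSet_Icc
  have h1 := setIntegral_mono_on (iA.add iB) (iC.sub iD) measurableSet_Ioo hb
  refine lt_of_le_of_lt h1 ?_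
  have h2 := integral_sub iC iD
  refine lt_of_eq_of_lt h2 ?_
  rw [setIntegral_indicator measurableSet_Icc]
  have e1 : Ioo (0:ℝ) 4 ∩ Icc (5/2) (7/2) = Icc (5/2) (7/2) := by
    apply inter_eq_right.2
    intro x hx
    exact ⟨by linarith [hx.1], by linarith [hx.2]⟩
  rw [e1]
  simp only [integral_const, measureReal_restrict_apply_univ, smul_eq_mul, Real.volume_real_Ioo,
    Real.volume_real_Icc]
  norm_num
  linarith

end Pool.Agent.X19.TR
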