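import Mathlib
import Pool.Agent.X19.TR.Geo

open MeasureTheory Set Filter Topology Metric
open scoped ENNReal

namespace Pool.Agent.X19.TR

section
variable {V : Set E3} {R : ℝ}

/-- translation between the integral equation and the operator form. -/
lemma eqn_iff (hV : IsOpen V) (hVR : V ⊆ ball 0 R) (lam : ℝ) (M : E3 × S2 → ℝ) {r : E3}
    (hr : r ∈ V) (o : S2) :
    1 - Real.exp (-exitDist V r o) + lam / (4 * Real.pi) * ∫ x in (0:ℝ)..exitDist V r o,
      Real.exp (-lam * x) * ∫ o', M (r + x • (o : E3), o') ∂surf =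
    src V (r, o) + opK V (Fk lam) M (r, o) := by
  rw [src_of_mem hV hVR hr, opK_of_mem hr,
    intervalIntegral.integral_of_le (exitDist_pos hV hVR hr o).le, integral_Ioc_eq_integral_Ioo,
    ← integral_const_mul]
  congr 2
  funext x
  unfold avg Fk
  rw [integral_tau]
  field_simp

lemma isSol_iff (hV : IsOpen V) (hVR : V ⊆ ball 0 R) (lam : ℝ) (M : E3 × S2 → ℝ) :
    IsSol V lam M ↔ Measurable M ∧ (∃ C : ℝ, ∀ r ∈ V, ∀ o : S2, |M (r, o)| ≤ C) ∧
      ∀ r ∈ V, ∀ o, M (r, o) = src V (r, o) + opK V (Fk lam) M (r, o) := by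
  constructor
  · rintro ⟨h1, h2, h3⟩
    exact ⟨h1, h2, fun r hr o => (h3 r hr o).trans (eqn_iff hV hVR lam M hr o)⟩
  · rintro ⟨h1, h2, h3⟩
    exact ⟨h1, h2, fun r hr o => (h3 r hr o).trans (eqn_iff hV hVR lam M hr o).symm⟩

theorem main : ∃ V : Set E3, IsOpen V ∧ Bornology.IsBounded V ∧
    ∃ (r : E3) (o : S2), r ∈ V ∧ ∃ M : ℝ → E3 × S2 → ℝ,
      (∀ lam, 0 < lam → IsSol V lam (M lam) ∧
        ∀ M', IsSol V lam M' → ∀ r' ∈ V, ∀ o' : S2, M' (r', o') = M lam (r', o')) ∧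
      ∃ c : ℝ, c < 0 ∧ HasDerivAt (fun lam => M lam (r, o)) c 1 := by
  set d : ℝ := 1 / 10 ^ 39 with hd
  set e : ℝ := 1 / 10 ^ 21 with he
  have hd0 : 0 < d := by rw [hd]; positivity
  have he0 : 0 < e := by rw [he]; positivity
  have he2 : e ≤ 1 / 2 := by rw [he]; norm_num
  have hV := dom_open d e
  have hVR := dom_sub (d := d) he2
  have hs := src_meas hV hVR
  have hs1 : ∀ P, |src (dom d e) P| ≤ 1 := fun P => by
    rw [abs_of_nonneg (src_nonneg hV hVR _)]; exact src_le_one hV hVR _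
  have hex : ∀ lam : ℝ, ∃ M : E3 × S2 → ℝ, 0 < lam → (Measurable M ∧ (∃ C, ∀ P, |M P| ≤ C) ∧
      ∀ r ∈ dom d e, ∀ o, M (r, o) = src (dom d e) (r, o) + opK (dom d e) (Fk lam) M (r, o)) := by
    intro lam
    by_cases hlam : 0 < lam
    · obtain ⟨M, hM⟩ := neumann hV hVR (by norm_num) hlam hs hs1
      exact ⟨M, fun _ => hM⟩
    · exact ⟨fun _ => 0, fun h => absurd h hlam⟩
  choose M hM using hex
  obtain ⟨hm1, ⟨C1, hC1⟩, hM1⟩ := hM 1 one_pos
  -- the derivative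
  have hk1m : Measurable (opK (dom d e) k1 (M 1)) := opK_measurable hV hVR k1_cont.measurable hm1
  have hk1b : ∀ P, |opK (dom d e) k1 (M 1) P| ≤ 10 * C1 := by
    rintro ⟨r, o⟩
    have hC10 : 0 ≤ C1 := (abs_nonneg _).trans (hC1 (r, o))
    by_cases hr : r ∈ dom d e
    · refine (opK_k1_le hV hVR hC10 (fun r _ => abs_avg_le fun o => hC1 _) hr o).trans ?_
      have := src_le_one hV hVR (r, o)
      nlinarith
    · rw [opK_of_notMem hr, abs_zero]; positivity
  obtain ⟨N, hNm, ⟨CN, hCN⟩, hN⟩ := neumann hV hVR (by norm_num) one_pos hk1m hk1b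
  have hder := deriv_sol (M := M) (N := N) hV hVR (by norm_num) (fun lam h => (hM lam h).1)
    (fun lam h => by
      obtain ⟨C, hC⟩ := (hM lam h).2.1
      exact ⟨C, fun r _ o => hC _⟩)
    (fun lam h => (hM lam h).2.2) hNm ⟨CN, fun r _ o => hCN _⟩ hN
    (pt_mem hd0 he0 (by norm_num) (by norm_num) : pt 0 ∈ dom d e) e0
  refine ⟨dom d e, hV, isBounded_ball.subset hVR, pt 0, e0,
    pt_mem hd0 he0 (by norm_num) (by norm_num), M, ?_, N (pt 0, e0), ?_, hder⟩
  · intro lam hlam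
    obtain ⟨a1, ⟨C, a2⟩, a3⟩ := hM lam hlam
    refine ⟨(isSol_iff hV hVR lam _).2 ⟨a1, ⟨C, fun r _ o => a2 _⟩, a3⟩, ?_⟩
    intro M' hM' r' hr' o'
    obtain ⟨b1, ⟨C', b2⟩, b3⟩ := (isSol_iff hV hVR lam _).1 hM'
    exact unique_sol hV hVR (by norm_num) hlam b1 a1 b2 (fun r _ o => a2 (r, o)) b3 a3 r' hr' o'
  · apply N_neg hd0 he0 he2 hm1 hNm (fun r _ o => hC1 _) (fun r _ o => hCN _) hM1 hN
      (A := 4 / 10 ^ 14) (al := 3 / 10 ^ 26) (by norm_num) _ (by norm_num) _ _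
    · intro r hr
      refine (avg_src_all he2 hr (u := 2 / 10 ^ 14) (by norm_num) he0).trans ?_
      rw [he]; norm_num
    · intro x hx0 hx1
      refine (avg_src_thin hd0 he0 he2 hx0 hx1 (u := 1 / 10 ^ 26) (by norm_num)
        (by norm_num)).trans ?_
      rw [hd]; norm_num
    · have h1 : (1:ℝ) / 81 ≤ Real.exp (-4) := by
        rw [Real.exp_neg, ← one_div]
        apply one_div_le_one_div_of_le (Real.exp_pos _)
        have h2 : Real.exp 4 = Real.exp 1 ^ 4 := by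
          rw [← Real.exp_nat_mul]; norm_num
        rw [h2]
        have h3 : Real.exp 1 ≤ 3 := by linarith [Real.exp_one_lt_d9]
        calc Real.exp 1 ^ 4 ≤ 3 ^ 4 := pow_le_pow_left₀ (Real.exp_pos _).le h3 4
          _ = 81 := by norm_num
      have h4 : 3 / 8 * (1 / 81) * e ≤ 3 / 8 * Real.exp (-4) * e := by gcongr
      refine lt_of_lt_of_le ?_ h4
      rw [he]; norm_num

end

end Pool.Agent.X19.TR
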